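import Pool.Agent.H937.QS.Stm3
import Pool.Graph.R_seed8.W469.WR.Mb

/-!
# The chart of a linear form is smooth (task LSM, helper297)
-/

set_option autoImplicit false

open scoped Matrix TensorProduct
open Pool.Agent.H937.QS
universe u
namespace Pool.Agent.H297.QS.LSM

open Pool.Agent.W469.WR.Mb

variable {k K : Type u} [Field k] [Field K] [Algebra k K]

/-- the chart of the index `i + 1` -/
theorem ch_succ (A : Subalgebra k K) {l : ℕ} (z : Fin (l + 1) → K) (c : Fin (l + 1) → k)
    (i : Fin (l + 1)) :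
    ch A (Fin.cons (∑ i, c i • z i) z : Fin (l + 1 + 1) → K) i.succ =
      (A ⊔ Algebra.adjoin k (Set.range fun j => z j / z i) : Subalgebra k K) := by
  have hmem : ∀ j, z j / z i ∈
      (A ⊔ Algebra.adjoin k (Set.range fun j => z j / z i) : Subalgebra k K) := fun j =>
    (le_sup_right : Algebra.adjoin k (Set.range fun j => z j / z i) ≤ _)
      (Algebra.subset_adjoin ⟨j, rfl⟩)
  refine le_antisymm (sup_le le_sup_left (Algebra.adjoin_le ?_))
    (sup_le le_sup_left (Algebra.adjoin_le ?_))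
  · rintro _ ⟨n, rfl⟩
    refine Fin.cases ?_ (fun j => ?_) n
    · show (Fin.cons (∑ i, c i • z i) z : Fin (l + 1 + 1) → K) 0 /
        (Fin.cons (∑ i, c i • z i) z : Fin (l + 1 + 1) → K) i.succ ∈ _
      rw [Fin.cons_zero, Fin.cons_succ, Finset.sum_div]
      refine Subalgebra.sum_mem _ fun j _ => ?_
      rw [smul_div_assoc]
      exact Subalgebra.smul_mem _ (hmem j) _
    · show (Fin.cons (∑ i, c i • z i) z : Fin (l + 1 + 1) → K) j.succ /
        (Fin.cons (∑ i, c i • z i) z : Fin (l + 1 + 1) → K) i.succ ∈ _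
      rw [Fin.cons_succ, Fin.cons_succ]
      exact hmem j
  · rintro _ ⟨j, rfl⟩
    have h := mem_ch A (Fin.cons (∑ i, c i • z i) z : Fin (l + 1 + 1) → K) i.succ j.succ
    rw [Fin.cons_succ, Fin.cons_succ] at h
    exact h

/-- the chart of the index `0` -/
theorem ch_zero (A : Subalgebra k K) {l : ℕ} (z : Fin (l + 1) → K) (c : Fin (l + 1) → k)
    (h0 : ∑ i, c i • z i ≠ 0) :
    ch A (Fin.cons (∑ i, c i • z i) z : Fin (l + 1 + 1) → K) 0 =
      (A ⊔ Algebra.adjoin k (Set.range fun j => z j / ∑ i, c i • z i) : Subalgebra k K) := by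
  refine le_antisymm (sup_le le_sup_left (Algebra.adjoin_le ?_))
    (sup_le le_sup_left (Algebra.adjoin_le ?_))
  · rintro _ ⟨n, rfl⟩
    refine Fin.cases ?_ (fun j => ?_) n
    · show (Fin.cons (∑ i, c i • z i) z : Fin (l + 1 + 1) → K) 0 /
        (Fin.cons (∑ i, c i • z i) z : Fin (l + 1 + 1) → K) 0 ∈ _
      rw [Fin.cons_zero, div_self h0]
      exact Subalgebra.one_mem _
    · show (Fin.cons (∑ i, c i • z i) z : Fin (l + 1 + 1) → K) j.succ /
        (Fin.cons (∑ i, c i • z i) z : Fin (l + 1 + 1) → K) 0 ∈ _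
      rw [Fin.cons_succ, Fin.cons_zero]
      exact (le_sup_right : Algebra.adjoin k (Set.range fun j => z j / ∑ i, c i • z i) ≤ _)
        (Algebra.subset_adjoin ⟨j, rfl⟩)
  · rintro _ ⟨j, rfl⟩
    have h := mem_ch A (Fin.cons (∑ i, c i • z i) z : Fin (l + 1 + 1) → K) 0 j.succ
    rw [Fin.cons_succ, Fin.cons_zero] at h
    exact h

theorem t_LSM : S_LSM.{u} := by
  intro k K _ _ _ A l z hz sm c h0
  have hw : ∀ n, (Fin.cons (∑ i, c i • z i) z : Fin (l + 1 + 1) → K) n ≠ 0 := by
    intro n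
    refine Fin.cases ?_ (fun j => ?_) n
    · rw [Fin.cons_zero]; exact h0
    · rw [Fin.cons_succ]; exact hz j
  have h := smooth_all (AlgHom.id k K) A (Fin.cons (∑ i, c i • z i) z : Fin (l + 1 + 1) → K) hw
    (Set.range Fin.succ) ?_ ?_ 0
  · rw [ch_zero A z c h0] at h
    exact h
  · intro V hV
    have hk : ∀ a : k, algebraMap k K a ∈ V := fun a => hV _ (A.algebraMap_mem a)
    obtain ⟨i, hi⟩ := Finite.exists_max (fun i => V.valuation (z i))
    have hV1 : ∀ j, z j / z i ∈ V := by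
      intro j
      rw [← V.valuation_le_one_iff, map_div₀]
      exact div_le_one_of_le₀ (hi j) zero_le'
    refine ⟨i.succ, ⟨i, rfl⟩, fun n => ?_⟩
    show (Fin.cons (∑ i, c i • z i) z : Fin (l + 1 + 1) → K) n /
        (Fin.cons (∑ i, c i • z i) z : Fin (l + 1 + 1) → K) i.succ ∈ V
    rw [Fin.cons_succ]
    refine Fin.cases ?_ (fun j => ?_) n
    · rw [Fin.cons_zero, Finset.sum_div]
      refine sum_mem fun j _ => ?_
      rw [smul_div_assoc, Algebra.smul_def]
      exact V.mul_mem _ _ (hk _) (hV1 j)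
    · rw [Fin.cons_succ]
      exact hV1 j
  · rintro _ ⟨i, rfl⟩
    rw [ch_succ A z c i]
    exact sm i

end Pool.Agent.H297.QS.LSM
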